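import Mathlib

/-!
There are infinitely many `Δ`-primitive squares.
-/

namespace Pool.Agent.Results.MP_2b20db_nt.InfManySquares

/-- `D*_n`: the set of differences `|a - b|` of complementary divisors, `a b = n`. -/
def DStar (n : ℕ) : Set ℕ := {d | ∃ a b : ℕ, a * b = n ∧ a = b + d}

/-- `D⁺_n`: the set of sums of two nonzero elements of `D*_n`. -/
def DPlus (n : ℕ) : Set ℕ := {s | ∃ x ∈ DStar n, ∃ y ∈ DStar n, x ≠ 0 ∧ y ≠ 0 ∧ s = x + y}

/-- The `Δ` property: `D*_n` and `D⁺_n` have a common element. -/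
def HasDelta (n : ℕ) : Prop := (DStar n ∩ DPlus n).Nonempty

/-- `n` is `Δ`-primitive: it has the `Δ` property and is not `α ^ 2 * m` with `α, m ≥ 2` and `m`
having the `Δ` property. -/
def DeltaPrimitive (n : ℕ) : Prop :=
  HasDelta n ∧ ¬ ∃ α m : ℕ, 2 ≤ α ∧ 2 ≤ m ∧ n = α ^ 2 * m ∧ HasDelta m

theorem not_hasDelta_one : ¬ HasDelta 1 := by
  rintro ⟨s, -, x, ⟨a, b, hab, hx⟩, y, -, hx0, -, -⟩
  have ha : a = 1 := Nat.eq_one_of_mul_eq_one_right hab
  have hb : b = 1 := Nat.eq_one_of_mul_eq_one_left hab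
  omega

/-- The factors of the parametric family. -/
def u (m : ℕ) : ℕ := 1 + 4 * m
/-- The factors of the parametric family. -/
def f (m : ℕ) : ℕ := 1 + 8 * m + 16 * m ^ 2 + 16 * m ^ 3
/-- The factors of the parametric family. -/
def l (m : ℕ) : ℕ := 1 + 4 * m + 8 * m ^ 2 + 16 * m ^ 3
/-- The factors of the parametric family. -/
def h (m : ℕ) : ℕ := 1 + 8 * m + 24 * m ^ 2 + 16 * m ^ 3
/-- The factors of the parametric family. -/
def g (m : ℕ) : ℕ := 16 * m ^ 3 - 4 * m - 1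

theorem g_eq (m : ℕ) (hm : 0 < m) : (g m : ℤ) = 16 * m ^ 3 - 4 * m - 1 := by
  unfold g
  have h1 : 4 * m + 1 ≤ 16 * m ^ 3 := by
    have : m ≤ m ^ 3 := Nat.le_self_pow (by norm_num) m
    omega
  have : 16 * m ^ 3 - 4 * m - 1 + (4 * m + 1) = 16 * m ^ 3 := by omega
  have h2 : ((16 * m ^ 3 - 4 * m - 1 : ℕ) : ℤ) + (4 * m + 1) = 16 * m ^ 3 := by exact_mod_cast this
  linarith

/-- The parametric element. -/
def k (m : ℕ) : ℕ := u m * (f m * (g m * (h m * l m)))

theorem g_coprime (m : ℕ) (hm : 0 < m) : (g m).Coprime m := by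
  have h1 : (g m : ℤ) = 16 * m ^ 3 - 4 * m - 1 := g_eq m hm
  rw [← Nat.isCoprime_iff_coprime]
  refine ⟨-1, 16 * m ^ 2 - 4, ?_⟩
  rw [h1]; ring

theorem k_coprime (m : ℕ) (hm : 0 < m) : (k m).Coprime m := by
  have cop : ∀ x t : ℕ, x = 1 + m * t → x.Coprime m := by
    intro x t hx
    rw [hx, Nat.coprime_add_mul_left_left]
    exact Nat.coprime_one_left m
  unfold k
  refine Nat.Coprime.mul_left (cop _ 4 (by unfold u; ring)) (Nat.Coprime.mul_left
    (cop _ (8 + 16 * m + 16 * m ^ 2) (by unfold f; ring)) (Nat.Coprime.mul_left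
    (g_coprime m hm) (Nat.Coprime.mul_left (cop _ (8 + 24 * m + 16 * m ^ 2) (by unfold h; ring))
    (cop _ (4 + 8 * m + 16 * m ^ 2) (by unfold l; ring)))))

theorem k_pos (m : ℕ) (hm : 0 < m) : 0 < k m := by
  have hg : 0 < g m := by
    unfold g
    have : m ≤ m ^ 3 := Nat.le_self_pow (by norm_num) m
    omega
  unfold k u f h l
  positivity

theorem hasDelta_k (m : ℕ) (hm : 0 < m) : HasDelta (k m ^ 2) := by
  have hg := g_eq m hm
  have hm' : (1 : ℤ) ≤ m := by exact_mod_cast hm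
  have hm2 : (0 : ℤ) < (m : ℤ) ^ 2 := by positivity
  have hm3 : (m : ℤ) ≤ (m : ℤ) ^ 3 := by nlinarith
  have hgpos : (0 : ℤ) < g m := by rw [hg]; linarith
  have hfg : (g m : ℤ) < f m := by
    rw [hg]; unfold f; push_cast; nlinarith [pow_pos (by linarith : (0:ℤ) < m) 2]
  have hhg : (g m : ℤ) < h m := by
    rw [hg]; unfold h; push_cast; nlinarith [pow_pos (by linarith : (0:ℤ) < m) 2]
  have hfl : (l m : ℤ) < f m := by
    unfold f l; push_cast; nlinarith [pow_pos (by linarith : (0:ℤ) < m) 2]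
  have hlh : (l m : ℤ) < h m := by
    unfold h l; push_cast; nlinarith [pow_pos (by linarith : (0:ℤ) < m) 2]
  have hhul : (h m : ℤ) < u m * l m := by
    unfold h u l; push_cast; nlinarith [pow_pos (by linarith : (0:ℤ) < m) 2,
      pow_pos (by linarith : (0:ℤ) < m) 3, pow_pos (by linarith : (0:ℤ) < m) 4]
  have hu1 : (1 : ℤ) < u m := by unfold u; push_cast; linarith
  have hfpos : (0 : ℤ) < f m := by linarith
  have hhpos : (0 : ℤ) < h m := by linarith
  have hlpos : (0 : ℤ) < l m := by unfold l; push_cast; positivity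
  have hupos : (0 : ℤ) < u m := by linarith
  -- the three pairs
  have p1 : (1 : ℤ) * (f m * g m * h m * l m) < u m ^ 2 * (f m * g m * h m * l m) := by
    apply mul_lt_mul_of_pos_right _ (by positivity)
    nlinarith
  have q2 : (g m * l m : ℤ) < f m * h m := by
    calc (g m * l m : ℤ) < f m * l m := mul_lt_mul_of_pos_right hfg hlpos
      _ < f m * h m := mul_lt_mul_of_pos_left hlh hfpos
  have p2 : (u m * (g m * l m) ^ 2 : ℤ) < u m * (f m * h m) ^ 2 := by
    apply mul_lt_mul_of_pos_left _ hupos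
    exact pow_lt_pow_left₀ q2 (by positivity) two_ne_zero
  have q3 : (g m * h m : ℤ) < u m * f m * l m := by
    calc (g m * h m : ℤ) < f m * h m := mul_lt_mul_of_pos_right hfg hhpos
      _ < f m * (u m * l m) := mul_lt_mul_of_pos_left hhul hfpos
      _ = u m * f m * l m := by ring
  have p3 : ((g m * h m) ^ 2 : ℤ) < (u m * f m * l m) ^ 2 :=
    pow_lt_pow_left₀ q3 (by positivity) two_ne_zero
  have p1' : f m * g m * h m * l m < u m ^ 2 * (f m * g m * h m * l m) := by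
    rw [one_mul] at p1; exact_mod_cast p1
  have p2' : u m * (g m * l m) ^ 2 < u m * (f m * h m) ^ 2 := by exact_mod_cast p2
  have p3' : (g m * h m) ^ 2 < (u m * f m * l m) ^ 2 := by exact_mod_cast p3
  obtain ⟨d1, hd1⟩ := Nat.exists_eq_add_of_lt p1'
  obtain ⟨d2, hd2⟩ := Nat.exists_eq_add_of_lt p2'
  obtain ⟨d3, hd3⟩ := Nat.exists_eq_add_of_lt p3'
  have key : d3 + 1 = (d1 + 1) + (d2 + 1) := by
    have e1 : (u m ^ 2 * (f m * g m * h m * l m) : ℤ) = f m * g m * h m * l m + (d1 + 1) := by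
      exact_mod_cast hd1
    have e2 : (u m * (f m * h m) ^ 2 : ℤ) = u m * (g m * l m) ^ 2 + (d2 + 1) := by
      exact_mod_cast hd2
    have e3 : ((u m * f m * l m) ^ 2 : ℤ) = (g m * h m) ^ 2 + (d3 + 1) := by
      exact_mod_cast hd3
    have e4 : ((u m * f m * l m) ^ 2 - (g m * h m) ^ 2 : ℤ) =
        (u m ^ 2 * (f m * g m * h m * l m) - f m * g m * h m * l m) +
        (u m * (f m * h m) ^ 2 - u m * (g m * l m) ^ 2) := by
      rw [hg]
      unfold u f h l
      push_cast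
      ring
    have : (d3 + 1 : ℤ) = (d1 + 1) + (d2 + 1) := by linarith
    exact_mod_cast this
  have m1 : d1 + 1 ∈ DStar (k m ^ 2) := by
    refine ⟨u m ^ 2 * (f m * g m * h m * l m), f m * g m * h m * l m, ?_, by omega⟩
    unfold k; ring
  have m2 : d2 + 1 ∈ DStar (k m ^ 2) := by
    refine ⟨u m * (f m * h m) ^ 2, u m * (g m * l m) ^ 2, ?_, by omega⟩
    unfold k; ring
  have m3 : d3 + 1 ∈ DStar (k m ^ 2) := by
    refine ⟨(u m * f m * l m) ^ 2, (g m * h m) ^ 2, ?_, by omega⟩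
    unfold k; ring
  exact ⟨d3 + 1, m3, d1 + 1, m1, d2 + 1, m2, by omega, by omega, key⟩

/-- Every `K` with the `Δ` property for `K ^ 2` has a divisor `j` with `j ^ 2` `Δ`-primitive. -/
theorem exists_primitive_dvd {K : ℕ} (hK : 0 < K) (hD : HasDelta (K ^ 2)) :
    ∃ j, j ∣ K ∧ 0 < j ∧ DeltaPrimitive (j ^ 2) := by
  classical
  have hex : ∃ j, j ∣ K ∧ HasDelta (j ^ 2) := ⟨K, dvd_rfl, hD⟩
  set j := Nat.find hex with hj
  have hspec : j ∣ K ∧ HasDelta (j ^ 2) := Nat.find_spec hex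
  have hj0 : 0 < j := Nat.pos_of_dvd_of_pos hspec.1 hK
  refine ⟨j, hspec.1, hj0, hspec.2, ?_⟩
  rintro ⟨α, m, hα, hm, heq, hm'⟩
  have hdvd : α ^ 2 ∣ j ^ 2 := ⟨m, heq⟩
  obtain ⟨i, hi⟩ := (Nat.pow_dvd_pow_iff two_ne_zero).mp hdvd
  have hmi : m = i ^ 2 := by
    rw [hi, mul_pow] at heq
    exact (Nat.eq_of_mul_eq_mul_left (by positivity) heq).symm
  have hi0 : 0 < i := by
    rcases Nat.eq_zero_or_pos i with h0 | h0
    · rw [h0] at hi; omega
    · exact h0
  have hlt : i < j := by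
    rw [hi]; nlinarith
  have hiK : i ∣ K := (Dvd.intro_left α hi.symm).trans hspec.1
  exact Nat.find_min hex hlt ⟨hiK, hmi ▸ hm'⟩

/-- There are infinitely many `Δ`-primitive squares. -/
theorem result : {k : ℕ | 0 < k ∧ DeltaPrimitive (k ^ 2)}.Infinite := by
  intro hfin
  set S := hfin.toFinset with hS
  set M := ∏ j ∈ S, j with hM
  have hmem : ∀ j, j ∈ S ↔ 0 < j ∧ DeltaPrimitive (j ^ 2) := by
    intro j; rw [hS, Set.Finite.mem_toFinset]; rfl
  have hMpos : 0 < M := Finset.prod_pos fun j hj => ((hmem j).mp hj).1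
  obtain ⟨j, hjK, hj0, hjp⟩ := exists_primitive_dvd (k_pos M hMpos) (hasDelta_k M hMpos)
  have hjM : j ∣ M := Finset.dvd_prod_of_mem (fun j => j) ((hmem j).mpr ⟨hj0, hjp⟩)
  have hj1 : j = 1 := Nat.eq_one_of_dvd_coprimes (k_coprime M hMpos) hjK hjM
  rw [hj1] at hjp
  exact not_hasDelta_one (by simpa using hjp.1)

end Pool.Agent.Results.MP_2b20db_nt.InfManySquares
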